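import Pool.Agent.H89.FM.Targets2

/-!
# The twisted second moment over a cell (MP_52e316_nt, row CEL)
-/

set_option autoImplicit false
set_option linter.unusedVariables false

open scoped Real Matrix MatrixGroups

namespace Pool.Agent.H19.FM

open Pool.Agent.H31.CN Pool.Agent.H89.FM

/-! ### The rotation -/

theorem tu_facts (t : ℝ) : ‖tu t‖ = 1 ∧ 0 < (tu t).re := by
  unfold tu
  refine ⟨Complex.norm_exp_ofReal_mul_I _, ?_⟩
  rw [Complex.exp_ofReal_mul_I_re]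
  have h0 : 0 < 1 / (1 + |t|) := by positivity
  have h1 : 1 / (1 + |t|) ≤ 1 := by
    rw [div_le_one (by positivity)]
    linarith [abs_nonneg t]
  have h2 := Real.pi_gt_three
  apply Real.cos_pos_of_mem_Ioo
  split_ifs <;> constructor <;> linarith

theorem qc_real (x y : ℝ) (v : ℤ × ℤ) (n : ℕ) :
    qc (x : ℂ) (y : ℂ) v / n = ((qz x y v / n : ℝ) : ℂ) := by
  unfold qc qz
  push_cast
  rfl

theorem Ec_real (hROT : T_ROT) {n : ℕ} {L : AddSubgroup (ℤ × ℤ)} (hn : 1 ≤ n) (hL : L ∈ Ls n)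
    {y : ℝ} (hy : 0 < y) (x : ℝ) (s : ℂ) :
    Ec s n L (x : ℂ) (y : ℂ) = Ez s n L x y := by
  have h := (hROT n L x y s (tu s.im) hn hL hy (tu_facts _).1 (tu_facts _).2).tsum_eq
  rw [← h]
  unfold Ec
  refine tsum_congr fun v => ?_
  rw [qc_real, Kc_real]

/-! ### The region -/

theorem isOpen_Rg (ρ t : ℝ) : IsOpen {p : ℂ × ℂ | Rg ρ t p.1 p.2} := by
  have e1 : {p : ℂ × ℂ | Rg ρ t p.1 p.2} = {p : ℂ × ℂ | |p.1.re| < 10 * ρ} ∩
      ({p : ℂ × ℂ | ρ / 10 < p.2.re} ∩ ({p : ℂ × ℂ | p.2.re < 10 * ρ} ∩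
      ({p : ℂ × ℂ | 2000 * (1 + |t|) * |p.1.im| < ρ} ∩
        {p : ℂ × ℂ | 2000 * (1 + |t|) * |p.2.im| < ρ}))) := rfl
  rw [e1]
  have hre1 : Continuous fun p : ℂ × ℂ => p.1.re := Complex.continuous_re.comp continuous_fst
  have hre2 : Continuous fun p : ℂ × ℂ => p.2.re := Complex.continuous_re.comp continuous_snd
  have him1 : Continuous fun p : ℂ × ℂ => p.1.im := Complex.continuous_im.comp continuous_fst
  have him2 : Continuous fun p : ℂ × ℂ => p.2.im := Complex.continuous_im.comp continuous_snd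
  exact (isOpen_lt hre1.abs continuous_const).inter
    ((isOpen_lt continuous_const hre2).inter ((isOpen_lt hre2 continuous_const).inter
      ((isOpen_lt (continuous_const.mul him1.abs) continuous_const).inter
        (isOpen_lt (continuous_const.mul him2.abs) continuous_const))))

theorem Rg_of_ball {ρ t c₁ c₂ : ℝ} (hρ : 1 ≤ ρ) (h1 : |c₁| ≤ 4 * ρ) (h2 : ρ / 5 ≤ c₂)
    (h3 : c₂ ≤ 2 * ρ) {z w : ℂ} (hz : ‖z - c₁‖ ≤ 2 * (ρ / (5000 * (1 + |t|))))
    (hw : ‖w - c₂‖ ≤ 2 * (ρ / (5000 * (1 + |t|)))) : Rg ρ t z w := by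
  have hT : 1 ≤ 1 + |t| := by linarith [abs_nonneg t]
  have hR : 2 * (ρ / (5000 * (1 + |t|))) * (2500 * (1 + |t|)) = ρ := by
    field_simp
    norm_num
  set R := 2 * (ρ / (5000 * (1 + |t|))) with hRdef
  have hR0 : 0 ≤ R := by positivity
  have hRle : 2500 * R ≤ ρ := by nlinarith
  have hzr := (Complex.abs_re_le_norm (z - c₁)).trans hz
  have hzi := (Complex.abs_im_le_norm (z - c₁)).trans hz
  have hwr := (Complex.abs_re_le_norm (w - c₂)).trans hw
  have hwi := (Complex.abs_im_le_norm (w - c₂)).trans hw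
  simp only [Complex.sub_re, Complex.sub_im, Complex.ofReal_re, Complex.ofReal_im,
    sub_zero] at hzr hzi hwr hwi
  obtain ⟨a1, a2⟩ := abs_le.1 hzr
  obtain ⟨b1, b2⟩ := abs_le.1 hwr
  obtain ⟨d1, d2⟩ := abs_le.1 h1
  refine ⟨?_, by linarith, by linarith, ?_, ?_⟩
  · rw [abs_lt]
    constructor <;> linarith
  · have h4 : 2000 * (1 + |t|) * |z.im| ≤ 2000 * (1 + |t|) * R :=
      mul_le_mul_of_nonneg_left hzi (by positivity)
    nlinarith
  · have h4 : 2000 * (1 + |t|) * |w.im| ≤ 2000 * (1 + |t|) * R :=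
      mul_le_mul_of_nonneg_left hwi (by positivity)
    nlinarith

/-! ### Powers -/

theorem nr_ge {ρ : ℝ} (hρ : 1 ≤ ρ) {v : ℤ × ℤ} (hv : v ≠ 0) : 1 / ρ ≤ nr ρ v := by
  unfold nr
  have h1 : 0 ≤ (v.1 : ℝ) ^ 2 / ρ := by positivity
  have h2 : 0 ≤ ρ * (v.2 : ℝ) ^ 2 := by positivity
  by_cases h3 : v.1 = 0
  · have h4 : v.2 ≠ 0 := fun h5 => hv (Prod.ext h3 h5)
    have h5 : (1 : ℝ) ≤ (v.2 : ℝ) ^ 2 := by
      have : 1 ≤ v.2 ^ 2 := by
        have := Int.one_le_abs h4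
        nlinarith [sq_abs v.2]
      exact_mod_cast this
    have h6 : 1 / ρ ≤ 1 := by
      rw [div_le_one (by linarith)]
      exact hρ
    nlinarith
  · have h5 : (1 : ℝ) ≤ (v.1 : ℝ) ^ 2 := by
      have : 1 ≤ v.1 ^ 2 := by
        have := Int.one_le_abs h3
        nlinarith [sq_abs v.1]
      exact_mod_cast this
    have h6 : 1 / ρ ≤ (v.1 : ℝ) ^ 2 / ρ := div_le_div_of_nonneg_right h5 (by linarith)
    linarith

/-- the powers in the bound of the coefficients -/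
theorem pow_bound {κ Y N n m₀ : ℝ} (hκ : 0 < κ) (hY : 1 ≤ Y) (hn : 1 ≤ n) (hnN : n ≤ N)
    (hN : N ≤ Y ^ (2 : ℝ)) (hm₀ : 1 / Y ≤ m₀) :
    ((N / n) ^ (1 / 2 + 2 * κ)) ^ 2 * ((n / m₀) ^ (1 / 2 + κ)) ^ 2 * m₀ ≤ N * Y ^ (14 * κ) := by
  have hY0 : 0 < Y := by linarith
  have hm : 0 < m₀ := lt_of_lt_of_le (by positivity) hm₀
  have hNn : 0 < N / n := by
    have : 0 < N := by linarith
    positivity
  have hnm : 0 < n / m₀ := by
    have : 0 < n := by linarith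
    positivity
  have e1 : ((N / n) ^ (1 / 2 + 2 * κ)) ^ 2 = N / n * (N / n) ^ (4 * κ) := by
    rw [← Real.rpow_natCast, ← Real.rpow_mul hNn.le]
    have : (1 / 2 + 2 * κ) * ((2 : ℕ) : ℝ) = 1 + 4 * κ := by
      push_cast
      ring
    rw [this, Real.rpow_add hNn, Real.rpow_one]
  have e2 : ((n / m₀) ^ (1 / 2 + κ)) ^ 2 = n / m₀ * (n / m₀) ^ (2 * κ) := by
    rw [← Real.rpow_natCast, ← Real.rpow_mul hnm.le]
    have : (1 / 2 + κ) * ((2 : ℕ) : ℝ) = 1 + 2 * κ := by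
      push_cast
      ring
    rw [this, Real.rpow_add hnm, Real.rpow_one]
  have h1 : (N / n) ^ (4 * κ) ≤ Y ^ (8 * κ) := by
    have h2 : N / n ≤ Y ^ (2 : ℝ) := by
      rw [div_le_iff₀ (by linarith)]
      exact hN.trans (le_mul_of_one_le_right (by positivity) hn)
    refine (Real.rpow_le_rpow hNn.le h2 (by linarith)).trans (le_of_eq ?_)
    rw [← Real.rpow_mul hY0.le]
    congr 1
    ring
  have h2 : (n / m₀) ^ (2 * κ) ≤ Y ^ (6 * κ) := by
    have h3 : n / m₀ ≤ Y ^ (3 : ℝ) := by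
      rw [div_le_iff₀ hm]
      have h4 : Y ^ (3 : ℝ) = Y ^ (2 : ℝ) * Y := by
        rw [← Real.rpow_add_one hY0.ne']
        norm_num
      have h5 : 1 ≤ Y * m₀ := by
        rw [div_le_iff₀ hY0] at hm₀
        linarith
      rw [h4, mul_assoc]
      have h6 : 0 ≤ Y ^ (2 : ℝ) := by positivity
      exact (hnN.trans hN).trans (le_mul_of_one_le_right h6 h5)
    refine (Real.rpow_le_rpow hnm.le h3 (by linarith)).trans (le_of_eq ?_)
    rw [← Real.rpow_mul hY0.le]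
    congr 1
    ring
  have h3 : Y ^ (14 * κ) = Y ^ (8 * κ) * Y ^ (6 * κ) := by
    rw [← Real.rpow_add hY0]
    congr 1
    ring
  have hn0 : 0 < n := by linarith
  have hN0 : 0 < N := by linarith
  calc ((N / n) ^ (1 / 2 + 2 * κ)) ^ 2 * ((n / m₀) ^ (1 / 2 + κ)) ^ 2 * m₀
      = N * ((N / n) ^ (4 * κ) * (n / m₀) ^ (2 * κ)) := by
        rw [e1, e2]
        field_simp
    _ ≤ N * (Y ^ (8 * κ) * Y ^ (6 * κ)) := by gcongr
    _ = N * Y ^ (14 * κ) := by rw [h3]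

theorem pf_CEL (hLS : T_LS) (hECB : T_ECB) (hECC : T_ECC) (hCAS : T_CAS) (hROT : T_ROT)
    (hEXP : T_EXP) (hFLS : T_FLS) (hMIN : T_MIN) : T_CEL := by
  intro ε hε
  obtain ⟨d0, hd0, hLS⟩ := hLS (ε / 2) (by linarith)
  set δ := min d0 (min (ε / 10) (1 / 8)) with hδdef
  have hδ0 : 0 < δ := lt_min hd0 (lt_min (by linarith) (by norm_num))
  have hδ1 : δ ≤ d0 := min_le_left _ _
  have hδ2 : δ ≤ ε / 10 := (min_le_right _ _).trans (min_le_left _ _)
  have hδ3 : δ ≤ 1 / 8 := (min_le_right _ _).trans (min_le_right _ _)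
  set κ := min (1 / 8) (ε / 100) with hκdef
  have hκ0 : 0 < κ := lt_min (by norm_num) (by linarith)
  have hκ1 : κ ≤ 1 / 8 := min_le_left _ _
  have hκ2 : κ ≤ ε / 100 := min_le_right _ _
  obtain ⟨CL, hCL0, hLS⟩ := hLS δ hδ0 hδ1
  obtain ⟨CE, kE, hCE0, hECB⟩ := hECB κ hκ0 hκ1
  obtain ⟨CB, hCB0, hEXP⟩ := hEXP κ hκ0 hκ1
  refine ⟨κ, hκ0, hκ1, δ, hδ0, hδ3, hδ2, 16 * CL * (CB * CE) ^ 2, 2 * kE, by positivity, ?_⟩
  intro s Y ρ c₁ c₂ P N α S hs hY hρ hρY hN hNY hα hP hc1 hc2 hc3 hS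
  obtain ⟨β, hβ, hB⟩ := hEXP s N α hs hN hα
  have hY0 : 0 < Y := by linarith
  have hρ0 : 0 < ρ := by linarith
  have hs8 : |s.re - 1 / 2| ≤ 1 / 8 := hs.trans hκ1
  have hN1 : (1 : ℝ) ≤ N := by exact_mod_cast hN
  have hNY2 : (N : ℝ) ≤ Y ^ (2 : ℝ) :=
    hNY.trans (Real.rpow_le_rpow_of_exponent_le hY (by linarith))
  have hSq : ∀ n ∈ Sq N, 1 ≤ n ∧ n ≤ N := by
    intro n hn
    unfold Sq at hn
    rw [Finset.mem_filter, Finset.mem_Icc] at hn
    exact hn.1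
  set F : QF → ℂ → ℂ → ℂ := fun Q x y =>
    ∑ n ∈ Sq N, ∑ L ∈ Ls n, β n / n * Ec s n L x y * (Rn n L Q : ℂ) with hF
  have hBF : ∀ Q ∈ S, Bf s α N Q = F Q (zx Q) (zy Q) := by
    intro Q hQ
    obtain ⟨hQ1, hQ2, -⟩ := hS Q hQ
    have hy : 0 < zy Q := by
      unfold zy
      have h1 : (0 : ℝ) < Q.1 := by exact_mod_cast hQ1
      have h2 : (0 : ℝ) < dsc Q := by exact_mod_cast hQ2
      positivity
    rw [hB Q hQ1 hQ2, hF]
    refine Finset.sum_congr rfl fun n hn => Finset.sum_congr rfl fun L hL => ?_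
    rw [Ec_real hROT (hSq n hn).1 hL hy]
  set T : ℝ := (1 + |s.im|) ^ kE with hT
  set E : ℝ := Real.exp (-(π / 2 * |s.im|)) with hE
  set M : ℝ := (CB * CE * T * E) ^ 2 * (N * Y ^ (14 * κ)) with hM
  have hM0 : 0 ≤ M := by positivity
  have hT0 : 0 < 1 + |s.im| := by linarith [abs_nonneg s.im]
  set R : ℝ := ρ / (5000 * (1 + |s.im|)) with hR
  have hR0 : 0 < R := by positivity
  set U : Set (ℂ × ℂ) := {p | Rg ρ s.im p.1 p.2} with hU
  have key := hCAS S F U (c₁ : ℂ) (c₂ : ℂ) R (CL * Y ^ (3 + ε / 2) * ρ * M)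
    (fun Q => (zx Q : ℂ)) (fun Q => (zy Q : ℂ)) hR0 (isOpen_Rg ρ s.im)
    (by
      rintro ⟨z, w⟩ ⟨hz, hw⟩
      rw [mem_closedBall_iff_norm] at hz hw
      exact Rg_of_ball hρ hc1 hc2 hc3 hz hw)
    (by
      intro Q _
      have h1 : ∀ n ∈ Sq N, ∀ L ∈ Ls n, ContinuousOn
          (fun p : ℂ × ℂ => β n / n * Ec s n L p.1 p.2 * (Rn n L Q : ℂ)) U := by
        intro n hn L hL
        exact (continuousOn_const.mul (hECC ρ n L s hρ0 (hSq n hn).1 hL hs8).1).mul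
          continuousOn_const
      exact continuousOn_finsetSum _ fun n hn => continuousOn_finsetSum _ fun L hL =>
        h1 n hn L hL)
    (by
      rintro Q - ⟨x, y⟩ hp
      have h1 : Rg ρ s.im x y := hp
      constructor
      · exact DifferentiableAt.fun_sum fun n hn => DifferentiableAt.fun_sum fun L hL =>
          ((((hECC ρ n L s hρ0 (hSq n hn).1 hL hs8).2 x y h1).1).const_mul _).mul_const _
      · exact DifferentiableAt.fun_sum fun n hn => DifferentiableAt.fun_sum fun L hL =>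
          ((((hECC ρ n L s hρ0 (hSq n hn).1 hL hs8).2 x y h1).2).const_mul _).mul_const _)
    (by
      intro Q hQ
      obtain ⟨-, -, -, h1, h2⟩ := hS Q hQ
      constructor
      · rw [← Complex.ofReal_sub, Complex.norm_real, Real.norm_eq_abs, hR,
          le_div_iff₀ (by positivity)]
        linarith
      · rw [← Complex.ofReal_sub, Complex.norm_real, Real.norm_eq_abs, hR,
          le_div_iff₀ (by positivity)]
        linarith)
    (by
      intro z w hz hw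
      have hRg : Rg ρ s.im z w := Rg_of_ball hρ hc1 hc2 hc3 hz.le hw.le
      have h1 := hLS Y ρ N M P S (fun n L => β n / n * Ec s n L z w) hY hρ hρY hN1 hNY hM0 hP
        (fun Q hQ => (hS Q hQ).2.2.1) (by
          rw [Nat.floor_natCast]
          intro n hn L hL
          obtain ⟨hn1, hnN⟩ := hSq n hn
          have hn1' : (1 : ℝ) ≤ n := by exact_mod_cast hn1
          have hnN' : (n : ℝ) ≤ N := by exact_mod_cast hnN
          obtain ⟨v, hv, hv0, hvm, -, -⟩ := hMIN ρ n L hρ0 hn1 hL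
          have hm0 : 1 / Y ≤ mn ρ L := by
            rw [← hvm]
            refine le_trans ?_ (nr_ge hρ hv0)
            exact one_div_le_one_div_of_le hρ0 hρY
          have hm0' : 0 < mn ρ L := lt_of_lt_of_le (by positivity) hm0
          have hb := hβ n hn
          have he := hECB ρ n L s z w hρ0 hn1 hL hs hRg
          have hp := pow_bound hκ0 hY hn1' hnN' hNY2 hm0
          set p := ((N : ℝ) / n) ^ (1 / 2 + 2 * κ) with hpdef
          set q := ((n : ℝ) / mn ρ L) ^ (1 / 2 + κ) with hqdef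
          have hp0 : 0 ≤ p := by positivity
          have hq0 : 0 ≤ q := by positivity
          have e1 : ‖β n / (n : ℂ) * Ec s n L z w‖ ^ 2 * (n : ℝ) ^ 2 * mn ρ L =
              ‖β n‖ ^ 2 * ‖Ec s n L z w‖ ^ 2 * mn ρ L := by
            rw [norm_mul, norm_div, Complex.norm_natCast]
            field_simp
          rw [e1]
          calc ‖β n‖ ^ 2 * ‖Ec s n L z w‖ ^ 2 * mn ρ L ≤
              (CB * p) ^ 2 * (CE * T * E * q) ^ 2 * mn ρ L := by gcongr
            _ = (CB * CE * T * E) ^ 2 * (p ^ 2 * q ^ 2 * mn ρ L) := by ring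
            _ ≤ M := by
                rw [hM]
                gcongr)
      rw [Nat.floor_natCast] at h1
      exact h1)
  have hsum : ∑ Q ∈ S, ‖Bf s α N Q‖ ^ 2 = ∑ Q ∈ S, ‖F Q (zx Q) (zy Q)‖ ^ 2 :=
    Finset.sum_congr rfl fun Q hQ => by rw [hBF Q hQ]
  rw [hsum]
  refine key.trans ?_
  have hT2 : T ^ 2 = (1 + |s.im|) ^ (2 * kE) := by
    rw [hT, ← pow_mul, mul_comm]
  have hE2 : E ^ 2 = Real.exp (-(π * |s.im|)) := by
    rw [hE, ← Real.exp_nat_mul]
    congr 1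
    push_cast
    ring
  have hYp : Y ^ (3 + ε / 2) * Y ^ (14 * κ) ≤ Y ^ (3 + ε) := by
    rw [← Real.rpow_add hY0]
    exact Real.rpow_le_rpow_of_exponent_le hY (by linarith)
  calc 16 * (CL * Y ^ (3 + ε / 2) * ρ * M) =
      16 * CL * (CB * CE) ^ 2 * T ^ 2 * E ^ 2 * (Y ^ (3 + ε / 2) * Y ^ (14 * κ)) * ρ * N := by
        rw [hM]
        ring
    _ ≤ 16 * CL * (CB * CE) ^ 2 * T ^ 2 * E ^ 2 * Y ^ (3 + ε) * ρ * N := by gcongr
    _ = _ := by rw [hT2, hE2]

end Pool.Agent.H19.FM
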