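import Pool.Agent.H89.FM.Targets2

/-!
# The expansion of the twisted sums (MP_52e316_nt, row EXP)
-/

set_option autoImplicit false

open scoped Real Matrix MatrixGroups

namespace Pool.Agent.H19.FM

open Pool.Agent.H31.CN Pool.Agent.H89.FM

/-! ### Lattices of index `m g` and of index `m` -/

/-- equal indices -/
theorem lat_eq_of_le {m : ℕ} (hm : 1 ≤ m) {L L' : AddSubgroup (ℤ × ℤ)} (h : L.index = m) (h' : L'.index = m)
    (hle : L ≤ L') : L = L' := by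
  refine le_antisymm hle ?_
  have h1 := AddSubgroup.relIndex_mul_index hle
  rw [h, h'] at h1
  have h2 : L.relIndex L' = 1 := by
    have : L.relIndex L' * m = 1 * m := by rw [h1, one_mul]
    exact Nat.eq_of_mul_eq_mul_right hm this
  exact AddSubgroup.relIndex_eq_one.1 h2

/-- the lattice of index `m` above a lattice of index `m g` -/
theorem lat_above (hFLS : T_FLS) (hCRT : T_CRT) (hRFM : T_RFM) {m g : ℕ} (hm : 1 ≤ m)
    (hg : 1 ≤ g) (hc : Nat.Coprime m g) {L : AddSubgroup (ℤ × ℤ)} (hL : L ∈ Ls (m * g)) :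
    ∃ L' ∈ Ls m, L ≤ L' ∧ (∀ L'' ∈ Ls m, L ≤ L'' → L'' = L') ∧ ∀ Q, Rn m L Q = Rn m L' Q := by
  obtain ⟨L₁, h1, L₂, h2, rfl⟩ := (hCRT m g hm hg hc).2.1 L hL
  refine ⟨L₁, h1, inf_le_left, fun L' h3 h4 => ?_, fun Q => ?_⟩
  · refine (lat_eq_of_le hm ((hFLS m L₁ hm).1.1 h1) ((hFLS m L' hm).1.1 h3) fun v hv => ?_).symm
    have e1 : (m : ℤ) • v ∈ L' := (hFLS m L' hm).2 h3 v
    have e2 : (g : ℤ) • v ∈ L' := h4 ⟨L₁.zsmul_mem hv _, (hFLS g L₂ hg).2 h2 v⟩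
    have h5 : IsCoprime (m : ℤ) (g : ℤ) := Nat.isCoprime_iff_coprime.2 hc
    obtain ⟨a, b, hab⟩ := h5
    have e3 : v = a • ((m : ℤ) • v) + b • ((g : ℤ) • v) := by
      rw [smul_smul, smul_smul, ← add_smul, hab, one_smul]
    rw [e3]
    exact L'.add_mem (L'.zsmul_mem e1 _) (L'.zsmul_mem e2 _)
  · unfold Rn
    refine Finset.prod_congr rfl fun p hp => ?_
    have h3 := (hRFM m g L₁ L₂ Q hm hg hc h1 h2).1 p (Nat.prime_of_mem_primeFactors hp)
      (Nat.dvd_of_mem_primeFactors hp)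
    by_cases h4 : Dv p L₁ Q
    · rw [if_pos h4, if_pos (h3.2 h4)]
    · rw [if_neg h4, if_neg fun h5 => h4 (h3.1 h5)]

open Classical in
/-- grouping -/
theorem sum_group (hFLS : T_FLS) (hCRT : T_CRT) (hRFM : T_RFM) {m g : ℕ} (hm : 1 ≤ m)
    (hg : 1 ≤ g) (hc : Nat.Coprime m g) (Q : QF) (E : AddSubgroup (ℤ × ℤ) → ℂ) :
    ∑ L ∈ Ls (m * g), (Rn m L Q : ℂ) * E L =
      ∑ L' ∈ Ls m, (Rn m L' Q : ℂ) * ∑ L ∈ (Ls (m * g)).filter (fun L => L ≤ L'), E L := by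
  have h1 : ∀ L' ∈ Ls m, (Rn m L' Q : ℂ) * ∑ L ∈ (Ls (m * g)).filter (fun L => L ≤ L'), E L =
      ∑ L ∈ Ls (m * g), if L ≤ L' then (Rn m L' Q : ℂ) * E L else 0 := by
    intro L' _
    rw [Finset.sum_filter, Finset.mul_sum]
    refine Finset.sum_congr rfl fun L _ => ?_
    split_ifs
    · rfl
    · rw [mul_zero]
  rw [Finset.sum_congr rfl h1, Finset.sum_comm]
  refine Finset.sum_congr rfl fun L hL => ?_
  obtain ⟨L', h2, h3, h4, h5⟩ := lat_above hFLS hCRT hRFM hm hg hc hL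
  rw [Finset.sum_eq_single L']
  · rw [if_pos h3, h5]
  · intro L'' h6 h7
    exact if_neg fun h8 => h7 (h4 L'' h6 h8)
  · intro h6
    exact absurd h2 h6

/-! ### Pairs of factors -/

/-- change of variables -/
theorem sum_factor (N : ℕ) (F : ℕ → ℕ → ℂ) :
    ∑ n ∈ Sq N, ∑ m ∈ n.divisors, F m (n / m) =
      ∑ m ∈ Sq N, ∑ g ∈ (Finset.Icc 1 N).filter (fun g => m * g ∈ Sq N), F m g := by
  rw [Finset.sum_sigma', Finset.sum_sigma']
  refine Finset.sum_nbij' (fun z => ⟨z.2, z.1 / z.2⟩) (fun z => ⟨z.1 * z.2, z.1⟩) ?_ ?_ ?_ ?_ ?_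
  · rintro ⟨n, m⟩ h
    rw [Finset.mem_sigma] at h
    have h1 := h.1
    unfold Sq at h1
    rw [Finset.mem_filter, Finset.mem_Icc] at h1
    have h2 : m ∣ n := Nat.dvd_of_mem_divisors h.2
    have h3 : m * (n / m) = n := Nat.mul_div_cancel' h2
    have h4 : 1 ≤ m := Nat.pos_of_dvd_of_pos h2 h1.1.1
    have h5 : 1 ≤ n / m := Nat.div_pos (Nat.le_of_dvd h1.1.1 h2) h4
    rw [Finset.mem_sigma]
    refine ⟨?_, ?_⟩
    · show m ∈ Sq N
      unfold Sq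
      rw [Finset.mem_filter, Finset.mem_Icc]
      exact ⟨⟨h4, (Nat.le_of_dvd h1.1.1 h2).trans h1.1.2⟩, h1.2.squarefree_of_dvd h2⟩
    · show n / m ∈ (Finset.Icc 1 N).filter (fun g => m * g ∈ Sq N)
      rw [Finset.mem_filter, Finset.mem_Icc]
      refine ⟨⟨h5, (Nat.div_le_self n m).trans h1.1.2⟩, ?_⟩
      rw [h3]
      exact h.1
  · rintro ⟨m, g⟩ h
    rw [Finset.mem_sigma, Finset.mem_filter, Finset.mem_Icc] at h
    obtain ⟨h1, h2, h3⟩ := h
    rw [Finset.mem_sigma]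
    refine ⟨h3, ?_⟩
    show m ∈ (m * g).divisors
    rw [Nat.mem_divisors]
    refine ⟨Dvd.intro _ rfl, ?_⟩
    have h3' := h3
    unfold Sq at h3'
    rw [Finset.mem_filter, Finset.mem_Icc] at h3'
    show m * g ≠ 0
    have h4 : 1 ≤ m * g := h3'.1.1
    omega
  · rintro ⟨n, m⟩ h
    rw [Finset.mem_sigma] at h
    have h3 : m * (n / m) = n := Nat.mul_div_cancel' (Nat.dvd_of_mem_divisors h.2)
    show (⟨m * (n / m), m⟩ : (_ : ℕ) × ℕ) = ⟨n, m⟩
    rw [h3]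
  · rintro ⟨m, g⟩ h
    rw [Finset.mem_sigma] at h
    have h1 := h.1
    unfold Sq at h1
    rw [Finset.mem_filter, Finset.mem_Icc] at h1
    show (⟨m, m * g / m⟩ : (_ : ℕ) × ℕ) = ⟨m, g⟩
    have h2 : 0 < m := h1.1.1
    rw [Nat.mul_div_cancel_left _ h2]
  · rintro ⟨n, m⟩ _
    rfl

/-! ### The coefficients -/

/-- the divisor sum -/
noncomputable def sg (s : ℂ) (g : ℕ) : ℂ :=
  ∑ k ∈ g.divisors, (k : ℂ) ^ (1 - s) * ((g / k : ℕ) : ℂ) ^ s

/-- the coefficients -/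
noncomputable def bt (s : ℂ) (N : ℕ) (α : ℕ → ℂ) (m : ℕ) : ℂ :=
  ∑ g ∈ (Finset.Icc 1 N).filter (fun g => m * g ∈ Sq N), α (m * g) / g * sg s g

theorem card_div_le {g : ℕ} (hg : Squarefree g) :
    g.divisors.card ≤ 3 ^ g.primeFactors.card := by
  rw [Nat.card_divisors hg.ne_zero, ← Finset.prod_const]
  refine Finset.prod_le_prod' fun p _ => ?_
  have := hg.natFactorization_le_one p
  omega

theorem norm_sg_le {κ : ℝ} {s : ℂ} (hs : |s.re - 1 / 2| ≤ κ) {g : ℕ} (hg : Squarefree g) :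
    ‖sg s g‖ ≤ 3 ^ g.primeFactors.card * (g : ℝ) ^ (1 / 2 + κ) := by
  obtain ⟨h1, h2⟩ := abs_le.1 hs
  have hterm : ∀ k ∈ g.divisors, ‖(k : ℂ) ^ (1 - s) * ((g / k : ℕ) : ℂ) ^ s‖ ≤
      (g : ℝ) ^ (1 / 2 + κ) := by
    intro k hk
    have h3 : k ∣ g := Nat.dvd_of_mem_divisors hk
    have hg0 : 0 < g := Nat.pos_of_ne_zero hg.ne_zero
    have h4 : 0 < k := Nat.pos_of_dvd_of_pos h3 hg0
    have h5 : 0 < g / k := Nat.div_pos (Nat.le_of_dvd hg0 h3) h4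
    rw [norm_mul, Complex.norm_natCast_cpow_of_pos h4, Complex.norm_natCast_cpow_of_pos h5]
    have h6 : (g : ℝ) = (k : ℝ) * ((g / k : ℕ) : ℝ) := by
      rw [← Nat.cast_mul, Nat.mul_div_cancel' h3]
    have h7 : (1 : ℝ) ≤ k := by exact_mod_cast h4
    have h8 : (1 : ℝ) ≤ ((g / k : ℕ) : ℝ) := by exact_mod_cast h5
    rw [h6, Real.mul_rpow (by linarith) (by linarith)]
    refine mul_le_mul ?_ ?_ (by positivity) (by positivity)
    · refine Real.rpow_le_rpow_of_exponent_le h7 ?_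
      simp only [Complex.sub_re, Complex.one_re]
      linarith
    · exact Real.rpow_le_rpow_of_exponent_le h8 (by linarith)
  unfold sg
  refine (norm_sum_le _ _).trans ((Finset.sum_le_sum hterm).trans ?_)
  rw [Finset.sum_const, nsmul_eq_mul]
  have h9 : (g.divisors.card : ℝ) ≤ 3 ^ g.primeFactors.card := by exact_mod_cast card_div_le hg
  exact mul_le_mul_of_nonneg_right h9 (by positivity)

theorem norm_bt_le {κ : ℝ} (hκ : 0 < κ) {C : ℝ}
    (hC : ∀ (A : ℝ) (a : ℕ), 1 ≤ A → 1 ≤ a →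
      ∑ f ∈ Sq ⌊A⌋₊, 3 ^ f.primeFactors.card * (Nat.gcd f a : ℝ) / f ≤ C * (A * a) ^ κ)
    {s : ℂ} (hs : |s.re - 1 / 2| ≤ κ) {N : ℕ} {α : ℕ → ℂ} (hα : ∀ n, ‖α n‖ ≤ 1) {m : ℕ}
    (hm : m ∈ Sq N) : ‖bt s N α m‖ ≤ C * ((N : ℝ) / m) ^ (1 / 2 + 2 * κ) := by
  unfold Sq at hm
  rw [Finset.mem_filter, Finset.mem_Icc] at hm
  obtain ⟨⟨hm1, hmN⟩, -⟩ := hm
  have hm0 : (0 : ℝ) < m := by exact_mod_cast hm1
  set A : ℝ := (N : ℝ) / m with hA
  have hA1 : 1 ≤ A := by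
    rw [hA, le_div_iff₀ hm0, one_mul]
    exact_mod_cast hmN
  have hfl : ⌊A⌋₊ = N / m := Nat.floor_div_eq_div N m
  have hsub : (Finset.Icc 1 N).filter (fun g => m * g ∈ Sq N) ⊆ Sq ⌊A⌋₊ := by
    intro g hg
    unfold Sq at hg ⊢
    rw [Finset.mem_filter, Finset.mem_Icc, Finset.mem_filter, Finset.mem_Icc] at hg
    rw [Finset.mem_filter, Finset.mem_Icc, hfl]
    refine ⟨⟨hg.1.1, ?_⟩, hg.2.2.squarefree_of_dvd (Dvd.intro_left _ rfl)⟩
    rw [Nat.le_div_iff_mul_le hm1, mul_comm]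
    exact hg.2.1.2
  have hterm : ∀ g ∈ Sq ⌊A⌋₊, ‖α (m * g) / g * sg s g‖ ≤
      A ^ (1 / 2 + κ) * (3 ^ g.primeFactors.card * (Nat.gcd g 1 : ℝ) / g) := by
    intro g hg
    unfold Sq at hg
    rw [Finset.mem_filter, Finset.mem_Icc] at hg
    have hg0 : (1 : ℝ) ≤ g := by exact_mod_cast hg.1.1
    have hgA : (g : ℝ) ≤ A := (Nat.cast_le.2 hg.1.2).trans (Nat.floor_le (by linarith))
    have h1 := norm_sg_le hs hg.2
    have h2 : (g : ℝ) ^ (1 / 2 + κ) ≤ A ^ (1 / 2 + κ) :=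
      Real.rpow_le_rpow (by linarith) hgA (by linarith)
    rw [norm_mul, norm_div, Complex.norm_natCast, Nat.gcd_one_right, Nat.cast_one, mul_one]
    calc ‖α (m * g)‖ / g * ‖sg s g‖ ≤
        1 / g * (3 ^ g.primeFactors.card * A ^ (1 / 2 + κ)) := by
          refine mul_le_mul ?_ ?_ (norm_nonneg _) (by positivity)
          · exact div_le_div_of_nonneg_right (hα _) (by linarith)
          · exact h1.trans (mul_le_mul_of_nonneg_left h2 (by positivity))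
      _ = A ^ (1 / 2 + κ) * (3 ^ g.primeFactors.card / g) := by ring
  have hsum := hC A 1 hA1 le_rfl
  unfold bt
  calc ‖∑ g ∈ (Finset.Icc 1 N).filter (fun g => m * g ∈ Sq N), α (m * g) / g * sg s g‖ ≤
      ∑ g ∈ (Finset.Icc 1 N).filter (fun g => m * g ∈ Sq N), ‖α (m * g) / g * sg s g‖ :=
        norm_sum_le _ _
    _ ≤ ∑ g ∈ Sq ⌊A⌋₊, ‖α (m * g) / g * sg s g‖ :=
        Finset.sum_le_sum_of_subset_of_nonneg hsub fun _ _ _ => norm_nonneg _
    _ ≤ ∑ g ∈ Sq ⌊A⌋₊, A ^ (1 / 2 + κ) * (3 ^ g.primeFactors.card * (Nat.gcd g 1 : ℝ) / g) :=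
        Finset.sum_le_sum hterm
    _ = A ^ (1 / 2 + κ) * ∑ g ∈ Sq ⌊A⌋₊, 3 ^ g.primeFactors.card * (Nat.gcd g 1 : ℝ) / g := by
        rw [Finset.mul_sum]
    _ ≤ A ^ (1 / 2 + κ) * (C * (A * (1 : ℕ)) ^ κ) := by gcongr
    _ = C * A ^ (1 / 2 + 2 * κ) := by
        rw [Nat.cast_one, mul_one]
        have h3 : A ^ (1 / 2 + 2 * κ) = A ^ (1 / 2 + κ) * A ^ κ := by
          rw [← Real.rpow_add (by linarith : (0 : ℝ) < A)]
          congr 1
          ring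
        rw [h3]
        ring

open Classical in
theorem pf_EXP (hFLS : T_FLS) (hCRT : T_CRT) (hRFM : T_RFM) (hHEC : T_HEC) (hIND : T_IND)
    (hGCD : T_GCD) : T_EXP := by
  intro κ hκ _
  obtain ⟨C, hC0, hC⟩ := hGCD κ hκ
  refine ⟨C, hC0, fun s N α hs _ hα => ⟨bt s N α, fun m hm => norm_bt_le hκ hC hs hα hm,
    fun Q hQ hQd => ?_⟩⟩
  have hy : 0 < zy Q := by
    unfold zy
    have h1 : (0 : ℝ) < Q.1 := by exact_mod_cast hQ
    have h2 : (0 : ℝ) < dsc Q := by exact_mod_cast hQd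
    positivity
  -- the first form
  have e1 : ∀ n ∈ Sq N, α n * ∑ L ∈ (Ls n).filter (fun L => Dv n L Q),
      Ez s n L (zx Q) (zy Q) = ∑ m ∈ n.divisors, α (m * (n / m)) / ((m * (n / m) : ℕ) : ℂ) *
        ∑ L' ∈ Ls m, (Rn m L' Q : ℂ) * (sg s (n / m) * Ez s m L' (zx Q) (zy Q)) := by
    intro n hn
    unfold Sq at hn
    rw [Finset.mem_filter, Finset.mem_Icc] at hn
    have hn0 : (n : ℂ) ≠ 0 := by
      have : n ≠ 0 := by omega
      exact_mod_cast this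
    have h1 : ∑ L ∈ (Ls n).filter (fun L => Dv n L Q), Ez s n L (zx Q) (zy Q) =
        (1 / (n : ℂ)) * ∑ m ∈ n.divisors, ∑ L ∈ Ls n, (Rn m L Q : ℂ) *
          Ez s n L (zx Q) (zy Q) := by
      rw [Finset.sum_comm, Finset.mul_sum, Finset.sum_filter]
      refine Finset.sum_congr rfl fun L _ => ?_
      rw [← Finset.sum_mul, ← mul_assoc]
      have h2 := hIND n L Q hn.2
      have h3 : (if Dv n L Q then (1 : ℂ) else 0) =
          (1 / (n : ℂ)) * ∑ m ∈ n.divisors, (Rn m L Q : ℂ) := by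
        have h4 := congrArg (fun r : ℝ => (r : ℂ)) h2
        push_cast at h4
        rw [← h4]
        split_ifs <;> simp
      rw [← h3]
      split_ifs <;> simp
    rw [h1, ← mul_assoc, Finset.mul_sum]
    refine Finset.sum_congr rfl fun m hm => ?_
    have h2 : m ∣ n := Nat.dvd_of_mem_divisors hm
    have h3 : m * (n / m) = n := Nat.mul_div_cancel' h2
    have hm1 : 1 ≤ m := Nat.pos_of_dvd_of_pos h2 hn.1.1
    have hg1 : 1 ≤ n / m := Nat.div_pos (Nat.le_of_dvd hn.1.1 h2) hm1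
    have hsq : Squarefree (m * (n / m)) := by rw [h3]; exact hn.2
    have hc : Nat.Coprime m (n / m) := Nat.coprime_of_squarefree_mul hsq
    have h4 := sum_group hFLS hCRT hRFM hm1 hg1 hc Q
      (fun L => Ez s (m * (n / m)) L (zx Q) (zy Q))
    rw [h3] at h4 ⊢
    rw [h4]
    congr 1
    · ring
    · refine Finset.sum_congr rfl fun L' hL' => ?_
      have h5 := hHEC m (n / m) L' (zx Q) (zy Q) s hsq hL' hy
      rw [h3] at h5
      rw [h5]
      rfl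
  unfold Bf
  rw [Finset.sum_congr rfl e1]
  have e2 := sum_factor N (fun m g => α (m * g) / ((m * g : ℕ) : ℂ) *
    ∑ L' ∈ Ls m, (Rn m L' Q : ℂ) * (sg s g * Ez s m L' (zx Q) (zy Q)))
  refine e2.trans ?_
  refine Finset.sum_congr rfl fun m hm => ?_
  have e3 : ∀ L ∈ Ls m, bt s N α m / m * Ez s m L (zx Q) (zy Q) * (Rn m L Q : ℂ) =
      ∑ g ∈ (Finset.Icc 1 N).filter (fun g => m * g ∈ Sq N), α (m * g) / ((m * g : ℕ) : ℂ) *
        ((Rn m L Q : ℂ) * (sg s g * Ez s m L (zx Q) (zy Q))) := by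
    intro L _
    unfold bt
    rw [Finset.sum_div, Finset.sum_mul, Finset.sum_mul]
    refine Finset.sum_congr rfl fun g _ => ?_
    push_cast
    rw [← div_div]
    ring
  rw [Finset.sum_congr rfl e3, Finset.sum_comm]
  refine Finset.sum_congr rfl fun g _ => ?_
  rw [Finset.mul_sum]

end Pool.Agent.H19.FM
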