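import Pool.Agent.H89.FM.Targets2

/-!
# The expansion of the sum over the lattices in additive characters (MP_52e316_nt, row IDX)
-/

set_option autoImplicit false
set_option linter.unusedVariables false

open scoped Real Matrix MatrixGroups

namespace Pool.Agent.H19.FM

open Pool.Agent.H31.CN Pool.Agent.H89.FM

/-- reduced residues -/
def cop (n : ℕ) : Finset ℕ := (Finset.range n).filter (fun j => Nat.Coprime j n)

theorem card_cop (n : ℕ) : (cop n).card = Nat.totient n := by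
  unfold cop
  rw [Nat.totient_eq_card_coprime]
  congr 1
  refine Finset.filter_congr fun j _ => ?_
  exact Nat.coprime_comm

/-- the pairs of a lattice and a residue -/
noncomputable def Sf (f : ℕ) : Finset (AddSubgroup (ℤ × ℤ) × ℕ) := Ls f ×ˢ cop f

/-- numbering of the pairs -/
theorem exists_e (hCLF : T_CLF) : ∃ e : ℕ → AddSubgroup (ℤ × ℤ) × ℕ → ℕ, ∀ f, Squarefree f →
    Set.InjOn (e f) (Sf f) ∧ ∀ p ∈ Sf f, e f p < f ^ 2 := by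
  classical
  refine ⟨fun f p => if h : p ∈ Sf f then ((Sf f).equivFin ⟨p, h⟩).val else 0, fun f hf =>
    ⟨?_, ?_⟩⟩
  · intro p hp p' hp' h
    have hp1 : p ∈ Sf f := hp
    have hp1' : p' ∈ Sf f := hp'
    simp only [dif_pos hp1, dif_pos hp1'] at h
    have h1 := (Sf f).equivFin.injective (Fin.ext h)
    exact congrArg Subtype.val h1
  · intro p hp
    simp only [dif_pos hp]
    refine lt_of_lt_of_le ((Sf f).equivFin ⟨p, hp⟩).2 ?_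
    unfold Sf
    rw [Finset.card_product, card_cop]
    exact hCLF f hf

/-- the frequencies of the first kind -/
theorem exists_mu {e : ℕ → AddSubgroup (ℤ × ℤ) × ℕ → ℕ}
    (he : ∀ f, Squarefree f → Set.InjOn (e f) (Sf f) ∧ ∀ p ∈ Sf f, e f p < f ^ 2)
    (u : ℕ → AddSubgroup (ℤ × ℤ) → ℤ × ℤ) : ∃ μ : ℕ × ℕ → ℝ × ℝ × ℝ, ∀ f, Squarefree f →
      ∀ p ∈ Sf f, μ (f, e f p) = ((p.2 : ℝ) / f) • sq2 (u f p.1) := by
  classical
  refine ⟨fun g => (((Function.invFunOn (e g.1) (Sf g.1) g.2).2 : ℝ) / g.1) •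
    sq2 (u g.1 (Function.invFunOn (e g.1) (Sf g.1) g.2).1), fun f hf p hp => ?_⟩
  have h1 : Function.invFunOn (e f) (Sf f) (e f p) = p :=
    (he f hf).1.leftInvOn_invFunOn hp
  show (((Function.invFunOn (e f) (Sf f) (e f p)).2 : ℝ) / f) •
    sq2 (u f (Function.invFunOn (e f) (Sf f) (e f p)).1) = _
  rw [h1]

theorem ee_add (Q : QF) (ξ ζ : ℝ × ℝ × ℝ) : ee Q (ξ + ζ) = ee Q ξ * ee Q ζ := by
  unfold ee
  rw [← Complex.exp_add]
  congr 1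
  simp only [Prod.fst_add, Prod.snd_add]
  push_cast
  ring

/-- what the shape of a lattice gives -/
theorem shape_facts (hGEN : T_GEN) (hRFM : T_RFM) {ρ : ℝ} {n f m : ℕ}
    {L L' : AddSubgroup (ℤ × ℤ)} {w : ℤ × ℤ} (hn : Squarefree n) (h : Sh ρ n L f m L' w) :
    1 ≤ f ∧ 1 ≤ m ∧ Squarefree f ∧ Squarefree m ∧ Lw m w ∈ Ls m ∧
      ∀ Q, Rn n L Q = Rn f L' Q * Rn m (Lw m w) Q := by
  have hfm : Squarefree (f * m) := h.mul ▸ hn
  have h0 : f * m ≠ 0 := hfm.ne_zero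
  have hf : 1 ≤ f := Nat.pos_of_ne_zero fun h1 => h0 (by rw [h1, zero_mul])
  have hm : 1 ≤ m := Nat.pos_of_ne_zero fun h1 => h0 (by rw [h1, mul_zero])
  have hLw : Lw m w ∈ Ls m := hGEN.1 m w hm (by rw [h.prim]; exact Nat.coprime_one_left m)
  refine ⟨hf, hm, hfm.squarefree_of_dvd (Dvd.intro _ rfl),
    hfm.squarefree_of_dvd (Dvd.intro_left _ rfl), hLw, fun Q => ?_⟩
  have h1 := (hRFM f m L' (Lw m w) Q hf hm (Nat.coprime_of_squarefree_mul hfm) h.mem hLw).2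
  rw [h.mul, h.inf, h1]

/-- the expansion for one lattice -/
theorem expand_one (hGEN : T_GEN) (hRFM : T_RFM) (hRAM : T_RAM) {ρ : ℝ} {n f m : ℕ}
    {L L' : AddSubgroup (ℤ × ℤ)} {w u : ℤ × ℤ} (hn : Squarefree n) (h : Sh ρ n L f m L' w)
    (hu : Nat.Coprime (Int.gcd u.1 u.2) f) (hu' : L' = Lw f u) (Q : QF) :
    ∑ p ∈ cop f ×ˢ cop m, ee Q (((p.1 : ℝ) / f) • sq2 u + ((p.2 : ℝ) / m) • sq2 w) =
      (Rn n L Q : ℂ) := by
  obtain ⟨hf, hm, hfs, hms, hLw, hR⟩ := shape_facts hGEN hRFM hn h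
  rw [hR, Complex.ofReal_mul, hu', hRAM f u Q hfs hu,
    hRAM m w Q hms (by rw [h.prim]; exact Nat.coprime_one_left m), Finset.sum_mul_sum,
    Finset.sum_product]
  refine Finset.sum_congr rfl fun i _ => Finset.sum_congr rfl fun j _ => ?_
  exact ee_add Q _ _

theorem nr_pos {ρ : ℝ} (hρ : 0 < ρ) {w : ℤ × ℤ} (hw : Int.gcd w.1 w.2 = 1) : 0 < nr ρ w := by
  unfold nr
  have h1 : 0 ≤ (w.1 : ℝ) ^ 2 / ρ := by positivity
  have h2 : 0 ≤ ρ * (w.2 : ℝ) ^ 2 := by positivity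
  rcases eq_or_ne w.1 0 with h3 | h3
  · have h4 : w.2 ≠ 0 := by
      intro h5
      rw [h3, h5] at hw
      simp at hw
    have h5 : (w.2 : ℝ) ≠ 0 := by exact_mod_cast h4
    have h6 : 0 < ρ * (w.2 : ℝ) ^ 2 := by positivity
    linarith
  · have h5 : (w.1 : ℝ) ≠ 0 := by exact_mod_cast h3
    have h6 : 0 < (w.1 : ℝ) ^ 2 / ρ := by positivity
    linarith

/-- the bound of the coefficients -/
theorem coef_le {ρ M : ℝ} (hρ : 0 < ρ) (hM : 0 ≤ M) {n f m : ℕ}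
    {L L' : AddSubgroup (ℤ × ℤ)} {w : ℤ × ℤ} (h : Sh ρ n L f m L' w) (hf : 1 ≤ f) (hm : 1 ≤ m)
    {z : ℂ} (hz : ‖z‖ ^ 2 * (n : ℝ) ^ 2 * mn ρ L ≤ M) :
    ‖z‖ ^ 2 * (f : ℝ) ^ 4 * (m : ℝ) ^ 2 * nr ρ w ≤ M ∧
      ‖z‖ ≤ Real.sqrt (M / nr ρ w) * (1 / ((f : ℝ) ^ 2 * m)) := by
  have hw := nr_pos hρ h.prim
  have h1 : ‖z‖ ^ 2 * (f : ℝ) ^ 4 * (m : ℝ) ^ 2 * nr ρ w ≤ M := by
    refine le_trans (le_of_eq ?_) hz
    rw [← h.mn, h.mul]
    push_cast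
    ring
  refine ⟨h1, ?_⟩
  have hf0 : (0 : ℝ) < f := by exact_mod_cast hf
  have hm0 : (0 : ℝ) < m := by exact_mod_cast hm
  rw [mul_one_div, le_div_iff₀ (by positivity)]
  apply Real.le_sqrt_of_sq_le
  rw [le_div_iff₀ hw]
  refine le_trans (le_of_eq ?_) h1
  ring

/-- the majorant as a sum over triples -/
theorem Tw_eq (A : ℝ) (w : ℤ × ℤ) (Q : QF) (S : ℝ) :
    ∑ y ∈ ((Sq ⌊A⌋₊) ×ˢ (Sq ⌊A⌋₊)).sigma (fun p => Ls p.1),
      S * ((1 / ((y.1.1 : ℝ) ^ 2 * y.1.2)) * |Rn y.1.1 y.2 Q| * |Rn y.1.2 (Lw y.1.2 w) Q|) =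
      S * Tw A w Q := by
  rw [Finset.sum_sigma, Finset.sum_product]
  unfold Tw
  rw [Finset.mul_sum]
  refine Finset.sum_congr rfl fun f _ => ?_
  rw [Finset.mul_sum]
  refine Finset.sum_congr rfl fun m _ => ?_
  show ∑ L ∈ Ls f, S * ((1 / ((f : ℝ) ^ 2 * m)) * |Rn f L Q| * |Rn m (Lw m w) Q|) = _
  rw [← Finset.mul_sum, ← Finset.sum_mul, ← Finset.mul_sum]

theorem pf_IDX (hFLS : T_FLS) (hGEN : T_GEN) (hCRT : T_CRT) (hRFM : T_RFM) (hRAM : T_RAM)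
    (hSHP : T_SHP) (hCLF : T_CLF) : T_IDX := by
  classical
  intro ρ A M c hρ hA hM hc
  obtain ⟨e, he⟩ := exists_e hCLF
  have hu : ∀ (f : ℕ) (L' : AddSubgroup (ℤ × ℤ)), ∃ u : ℤ × ℤ, Squarefree f → L' ∈ Ls f →
      Nat.Coprime (Int.gcd u.1 u.2) f ∧ L' = Lw f u := by
    intro f L'
    by_cases h : Squarefree f ∧ L' ∈ Ls f
    · obtain ⟨u, hu⟩ := hGEN.2 f L' h.1 h.2
      exact ⟨u, fun _ _ => hu⟩
    · exact ⟨0, fun h1 h2 => absurd ⟨h1, h2⟩ h⟩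
  choose u hu using hu
  obtain ⟨μ, hμ⟩ := exists_mu he u
  set J : Finset ((_ : ℕ) × AddSubgroup (ℤ × ℤ)) := (Sq ⌊A⌋₊).sigma (fun n => Ls n) with hJ
  have hJm : ∀ z ∈ J, (1 ≤ z.1 ∧ z.1 ≤ ⌊A⌋₊) ∧ Squarefree z.1 ∧ z.1 ∈ Sq ⌊A⌋₊ ∧
      z.2 ∈ Ls z.1 := by
    intro z hz
    rw [hJ, Finset.mem_sigma] at hz
    have h1 := hz.1
    unfold Sq at h1
    rw [Finset.mem_filter, Finset.mem_Icc] at h1
    exact ⟨h1.1, h1.2, hz.1, hz.2⟩
  have hs : ∀ z : (_ : ℕ) × AddSubgroup (ℤ × ℤ), ∃ (f m : ℕ) (L' : AddSubgroup (ℤ × ℤ))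
      (w : ℤ × ℤ), z ∈ J → Sh ρ z.1 z.2 f m L' w := by
    intro z
    by_cases hz : z ∈ J
    · obtain ⟨f, m, L', w, h⟩ := hSHP ρ z.1 z.2 hρ (hJm z hz).2.1 (hJm z hz).2.2.2
      exact ⟨f, m, L', w, fun _ => h⟩
    · exact ⟨0, 0, ⊥, 0, fun h => absurd h hz⟩
  choose fF mF LF wF hSh using hs
  have hfact : ∀ z ∈ J, 1 ≤ fF z ∧ 1 ≤ mF z ∧ Squarefree (fF z) ∧ Squarefree (mF z) ∧
      Lw (mF z) (wF z) ∈ Ls (mF z) ∧
      ∀ Q, Rn z.1 z.2 Q = Rn (fF z) (LF z) Q * Rn (mF z) (Lw (mF z) (wF z)) Q :=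
    fun z hz => shape_facts hGEN hRFM (hJm z hz).2.1 (hSh z hz)
  set T : Finset ((_ : (_ : ℕ) × AddSubgroup (ℤ × ℤ)) × (ℕ × ℕ)) :=
    J.sigma (fun z => cop (fF z) ×ˢ cop (mF z)) with hT
  set X : ((_ : (_ : ℕ) × AddSubgroup (ℤ × ℤ)) × (ℕ × ℕ)) → Ix := fun t =>
    (wF t.1, (fF t.1, e (fF t.1) (LF t.1, t.2.1)), (mF t.1, t.2.2)) with hX
  have hTm : ∀ t ∈ T, t.1 ∈ J ∧ t.2.1 ∈ cop (fF t.1) ∧ t.2.2 ∈ cop (mF t.1) := by
    intro t ht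
    rw [hT, Finset.mem_sigma, Finset.mem_product] at ht
    exact ht
  have hSf : ∀ t ∈ T, ((LF t.1, t.2.1) : AddSubgroup (ℤ × ℤ) × ℕ) ∈ Sf (fF t.1) := by
    intro t ht
    unfold Sf
    rw [Finset.mem_product]
    exact ⟨(hSh t.1 (hTm t ht).1).mem, (hTm t ht).2.1⟩
  have hzeq : ∀ z ∈ J, ∀ z' ∈ J, fF z = fF z' → mF z = mF z' → LF z = LF z' → wF z = wF z' →
      z = z' := by
    intro z hz z' hz' h1 h2 h3 h4
    have e1 : z.1 = z'.1 := by rw [(hSh z hz).mul, (hSh z' hz').mul, h1, h2]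
    have e2 : z.2 = z'.2 := by rw [(hSh z hz).inf, (hSh z' hz').inf, h2, h3, h4]
    exact Sigma.ext e1 (heq_of_eq e2)
  have hinj : Set.InjOn X T := by
    intro t ht t' ht' h
    have ht1 : t ∈ T := ht
    have ht1' : t' ∈ T := ht'
    have hw : wF t.1 = wF t'.1 := congrArg (fun x : Ix => x.1) h
    have hf : fF t.1 = fF t'.1 := congrArg (fun x : Ix => x.2.1.1) h
    have hE : e (fF t.1) (LF t.1, t.2.1) = e (fF t'.1) (LF t'.1, t'.2.1) :=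
      congrArg (fun x : Ix => x.2.1.2) h
    have hm : mF t.1 = mF t'.1 := congrArg (fun x : Ix => x.2.2.1) h
    have hj : t.2.2 = t'.2.2 := congrArg (fun x : Ix => x.2.2.2) h
    have h1 := hSf t ht1
    rw [hf] at hE h1
    have h2 := (he (fF t'.1) (hfact t'.1 (hTm t' ht1').1).2.2.1).1 h1 (hSf t' ht1') hE
    obtain ⟨h3, h4⟩ := Prod.mk.inj h2
    have h5 : t.1 = t'.1 := hzeq _ (hTm t ht1).1 _ (hTm t' ht1').1 hf hm h3 hw
    exact Sigma.ext h5 (heq_of_eq (Prod.ext h4 hj))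
  set c' : Ix → ℂ := fun x => if h : ∃ t ∈ T, X t = x then c h.choose.1.1 h.choose.1.2 else 0
    with hc'
  have hcX : ∀ t ∈ T, c' (X t) = c t.1.1 t.1.2 := by
    intro t ht
    have h : ∃ t' ∈ T, X t' = X t := ⟨t, ht, rfl⟩
    have h1 : h.choose = t := hinj h.choose_spec.1 ht h.choose_spec.2
    rw [hc']
    simp only
    rw [dif_pos h, h1]
  have hlam : ∀ t ∈ T, lam μ (X t) = ((t.2.1 : ℝ) / fF t.1) • sq2 (u (fF t.1) (LF t.1)) +
      ((t.2.2 : ℝ) / mF t.1) • sq2 (wF t.1) := by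
    intro t ht
    have h1 := hμ (fF t.1) (hfact t.1 (hTm t ht).1).2.2.1 _ (hSf t ht)
    show μ (fF t.1, e (fF t.1) (LF t.1, t.2.1)) + _ = _
    rw [h1]
  have hsum : ∀ (P : ℤ × ℤ → Prop) [DecidablePred P] (Q : QF),
      ∑ x ∈ (T.image X).filter (fun x => P x.1), c' x * ee Q (lam μ x) =
        ∑ z ∈ J.filter (fun z => P (wF z)), c z.1 z.2 * (Rn z.1 z.2 Q : ℂ) := by
    intro P _ Q
    rw [Finset.sum_filter, Finset.sum_image hinj, hT, Finset.sum_sigma, Finset.sum_filter]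
    refine Finset.sum_congr rfl fun z hz => ?_
    have h0 : ∀ p ∈ cop (fF z) ×ˢ cop (mF z),
        (⟨z, p⟩ : (_ : (_ : ℕ) × AddSubgroup (ℤ × ℤ)) × (ℕ × ℕ)) ∈ T := by
      intro p hp
      rw [hT, Finset.mem_sigma]
      exact ⟨hz, hp⟩
    by_cases hP : P (wF z)
    · rw [if_pos hP, ← expand_one hGEN hRFM hRAM (hJm z hz).2.1 (hSh z hz)
        (hu (fF z) (LF z) (hfact z hz).2.2.1 (hSh z hz).mem).1
        (hu (fF z) (LF z) (hfact z hz).2.2.1 (hSh z hz).mem).2 Q, Finset.mul_sum]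
      refine Finset.sum_congr rfl fun p hp => ?_
      have h1 : P (X ⟨z, p⟩).1 := hP
      rw [if_pos h1, hcX _ (h0 p hp), hlam _ (h0 p hp)]
    · rw [if_neg hP]
      refine Finset.sum_eq_zero fun p hp => ?_
      have h1 : ¬ P (X ⟨z, p⟩).1 := hP
      rw [if_neg h1]
  have hcoef : ∀ z ∈ J, ‖c z.1 z.2‖ ^ 2 * (fF z : ℝ) ^ 4 * (mF z : ℝ) ^ 2 * nr ρ (wF z) ≤ M ∧
      ‖c z.1 z.2‖ ≤ Real.sqrt (M / nr ρ (wF z)) * (1 / ((fF z : ℝ) ^ 2 * mF z)) := fun z hz =>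
    coef_le hρ hM (hSh z hz) (hfact z hz).1 (hfact z hz).2.1
      (hc z.1 (hJm z hz).2.2.1 z.2 (hJm z hz).2.2.2)
  refine ⟨T.image X, c', μ, ?_, ?_, ?_, ?_⟩
  · intro x hx
    obtain ⟨t, ht, rfl⟩ := Finset.mem_image.1 hx
    obtain ⟨hz, hi, hj⟩ := hTm t ht
    have hs := hSh t.1 hz
    unfold cop at hj
    rw [Finset.mem_filter, Finset.mem_range] at hj
    refine ⟨hs.prim, hs.sgn, (he _ (hfact t.1 hz).2.2.1).2 _ (hSf t ht), hj.1, hj.2, hs.sh, ?_⟩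
    show (fF t.1 : ℝ) * mF t.1 ≤ A
    rw [← Nat.cast_mul, ← hs.mul]
    exact (Nat.cast_le.2 (hJm t.1 hz).1.2).trans (Nat.floor_le (by linarith))
  · intro x hx
    obtain ⟨t, ht, rfl⟩ := Finset.mem_image.1 hx
    rw [hcX t ht]
    exact (hcoef t.1 (hTm t ht).1).1
  · intro Q
    have h1 := hsum (fun _ => True) Q
    simp only [Finset.filter_true] at h1
    rw [h1, hJ, Finset.sum_sigma]
  · intro w Q
    rw [hsum (fun v => v = w) Q]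
    refine (norm_sum_le _ _).trans ?_
    set S := Real.sqrt (M / nr ρ w) with hS
    set G : ((_ : ℕ × ℕ) × AddSubgroup (ℤ × ℤ)) → ℝ := fun y =>
      S * ((1 / ((y.1.1 : ℝ) ^ 2 * y.1.2)) * |Rn y.1.1 y.2 Q| * |Rn y.1.2 (Lw y.1.2 w) Q|)
      with hG
    have hG0 : ∀ y, 0 ≤ G y := fun y => by positivity
    set Z : ((_ : ℕ) × AddSubgroup (ℤ × ℤ)) → ((_ : ℕ × ℕ) × AddSubgroup (ℤ × ℤ)) :=
      fun z => ⟨(fF z, mF z), LF z⟩ with hZ
    have hZinj : Set.InjOn Z (J.filter (fun z => wF z = w)) := by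
      intro z hz z' hz' h
      have hz1 := Finset.mem_filter.1 hz
      have hz1' := Finset.mem_filter.1 hz'
      have h1 : (fF z, mF z) = (fF z', mF z') :=
        congrArg (fun y : (_ : ℕ × ℕ) × AddSubgroup (ℤ × ℤ) => y.1) h
      have h2 : LF z = LF z' :=
        congrArg (fun y : (_ : ℕ × ℕ) × AddSubgroup (ℤ × ℤ) => y.2) h
      exact hzeq z hz1.1 z' hz1'.1 (Prod.mk.inj h1).1 (Prod.mk.inj h1).2 h2
        (hz1.2.trans hz1'.2.symm)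
    have hle : ∀ z ∈ J.filter (fun z => wF z = w), ‖c z.1 z.2 * (Rn z.1 z.2 Q : ℂ)‖ ≤
        G (Z z) := by
      intro z hz
      obtain ⟨hz1, hz2⟩ := Finset.mem_filter.1 hz
      have h1 := (hcoef z hz1).2
      rw [hz2] at h1
      rw [norm_mul, Complex.norm_real, Real.norm_eq_abs, (hfact z hz1).2.2.2.2.2 Q, abs_mul, hz2]
      show _ ≤ S * ((1 / ((fF z : ℝ) ^ 2 * mF z)) * |Rn (fF z) (LF z) Q| *
        |Rn (mF z) (Lw (mF z) w) Q|)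
      calc ‖c z.1 z.2‖ * (|Rn (fF z) (LF z) Q| * |Rn (mF z) (Lw (mF z) w) Q|) ≤
          (S * (1 / ((fF z : ℝ) ^ 2 * mF z))) *
            (|Rn (fF z) (LF z) Q| * |Rn (mF z) (Lw (mF z) w) Q|) :=
            mul_le_mul_of_nonneg_right h1 (by positivity)
        _ = _ := by ring
    refine (Finset.sum_le_sum hle).trans ?_
    rw [← Finset.sum_image hZinj, ← Tw_eq]
    refine Finset.sum_le_sum_of_subset_of_nonneg ?_ fun y _ _ => hG0 y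
    intro y hy
    obtain ⟨z, hz, rfl⟩ := Finset.mem_image.1 hy
    have hz1 := (Finset.mem_filter.1 hz).1
    obtain ⟨hf, hm, hfs, hms, -, -⟩ := hfact z hz1
    have hmul := (hSh z hz1).mul
    have hn := (hJm z hz1).1
    rw [Finset.mem_sigma, Finset.mem_product]
    refine ⟨⟨?_, ?_⟩, (hSh z hz1).mem⟩
    · show fF z ∈ Sq ⌊A⌋₊
      unfold Sq
      rw [Finset.mem_filter, Finset.mem_Icc]
      refine ⟨⟨hf, le_trans (Nat.le_of_dvd hn.1 ?_) hn.2⟩, hfs⟩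
      exact Dvd.intro _ hmul.symm
    · show mF z ∈ Sq ⌊A⌋₊
      unfold Sq
      rw [Finset.mem_filter, Finset.mem_Icc]
      refine ⟨⟨hm, le_trans (Nat.le_of_dvd hn.1 ?_) hn.2⟩, hms⟩
      exact Dvd.intro_left _ hmul.symm

end Pool.Agent.H19.FM
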